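import Pool.Agent.Q280.MS.SysJ
import Pool.Agent.Q280.MD.Exact
import Pool.Agent.Q280.SD.B

/-!
# The exceptional orbits of the modular Schanuel conjecture for `j`

For a finite set `S` of non-CM points of the upper half-plane in different orbits of `GL_2^+(ℚ)` let the *defect* of `S`
be `|S| - t`, where `t` is the transcendence degree of the field generated by the numbers `z`, `j(z)`, `z` in `S`.  The
modular Schanuel conjecture says that the defect is never positive.

We prove, without any hypothesis, that all possible violations of the conjecture come from one canonical set `B` of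
orbits: the inequality is exact over the field of `B` (for `n` points outside of `B` in different orbits, `n` of the numbers
`z_i`, `j(z_i)` are algebraically independent over it), and `B` is contained in every union of orbits with this property;
the defect of `S` is at most the defect of `S ∩ B` for every `S`; `B` is stable under `z ↦ - conj z`; `B` consists of the
points of the sets `S` for which all proper subsets have a smaller defect.  The conjecture holds if and only if `B` is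
empty, and it holds with a bounded error, `t ≥ n - C`, if and only if `B` consists of finitely many orbits.

The proof is that of `MP_f58a57_nt.ExceptionalOrbits` (the same for `z`, `j(z)`, `j'(z)`, `j''(z)`); here the transcendence
degree is well defined for finite sets of orbits by the modular equations.
-/

set_option autoImplicit false

open Matroid Set Q241.SX

namespace Pool.Agent.Results.MP_47914d_nt.ExceptionalOrbits

/-- The modular Schanuel conjecture, the frozen statement verbatim. -/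
def ModularSchanuel : Prop :=
  ∀ J : ℂ → ℂ,
    (∀ τ : ℂ, 0 < τ.im →
      J τ = 1728 * (60 * ∑' p : ℤ × ℤ, 1 / ((p.1 : ℂ) * τ + (p.2 : ℂ)) ^ 4) ^ 3 /
        ((60 * ∑' p : ℤ × ℤ, 1 / ((p.1 : ℂ) * τ + (p.2 : ℂ)) ^ 4) ^ 3 -
          27 * (140 * ∑' p : ℤ × ℤ, 1 / ((p.1 : ℂ) * τ + (p.2 : ℂ)) ^ 6) ^ 2)) →
    ∀ (n : ℕ) (z : Fin n → ℂ),
      (∀ i, 0 < (z i).im) →
      (∀ i, ¬ ∃ a b c : ℤ, (a ≠ 0 ∨ b ≠ 0 ∨ c ≠ 0) ∧
          (a : ℂ) * z i ^ 2 + (b : ℂ) * z i + (c : ℂ) = 0) →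
      (∀ i k, i ≠ k → ¬ ∃ a b c d : ℚ, 0 < a * d - b * c ∧
          z k * ((c : ℂ) * z i + (d : ℂ)) = (a : ℂ) * z i + (b : ℂ)) →
      ∃ w : Fin n → ℂ,
        (∀ m, w m ∈ Set.range z ∪ Set.range (fun i => J (z i))) ∧
        AlgebraicIndependent ℚ w

/-- The modular invariant `j` on the upper half-plane, by lattice sums (as in the frozen statement). -/
noncomputable def J (τ : ℂ) : ℂ :=
  1728 * (60 * ∑' p : ℤ × ℤ, 1 / ((p.1 : ℂ) * τ + (p.2 : ℂ)) ^ 4) ^ 3 /
    ((60 * ∑' p : ℤ × ℤ, 1 / ((p.1 : ℂ) * τ + (p.2 : ℂ)) ^ 4) ^ 3 -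
      27 * (140 * ∑' p : ℤ × ℤ, 1 / ((p.1 : ℂ) * τ + (p.2 : ℂ)) ^ 6) ^ 2)

/-- `z` is a CM point. -/
def CM (z : ℂ) : Prop :=
  ∃ a b c : ℤ, (a ≠ 0 ∨ b ≠ 0 ∨ c ≠ 0) ∧ (a : ℂ) * z ^ 2 + (b : ℂ) * z + (c : ℂ) = 0

/-- The points which are considered: points of the upper half-plane which are not CM points. -/
def Pts : Set ℂ := {z | 0 < z.im ∧ ¬ CM z}

/-- `z` and `w` are in the same orbit of `GL_2^+(ℚ)`: `w = (a z + b) / (c z + d)`. -/
def SameOrbit (z w : ℂ) : Prop :=
  ∃ a b c d : ℚ, 0 < a * d - b * c ∧ w * ((c : ℂ) * z + (d : ℂ)) = (a : ℂ) * z + (b : ℂ)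

/-- The field generated by the numbers `z`, `j(z)` with `z` in `F`. -/
noncomputable abbrev fieldOf (F : Set ℂ) : IntermediateField ℚ ℂ :=
  IntermediateField.adjoin ℚ (⋃ y ∈ F, {y, J y})

/-- The inequality up to a bounded error. -/
def BoundedError : Prop :=
  ∃ C : ℕ, ∀ (n : ℕ) (z : Fin n → ℂ), (∀ i, z i ∈ Pts) → (∀ i k, i ≠ k → ¬ SameOrbit (z i) (z k)) →
    ∃ w : Fin (n - C) → ℂ, (∀ k, ∃ i, w k = z i ∨ w k = J (z i)) ∧ AlgebraicIndependent ℚ w

/-- The inequality over the field of `B`, for the points outside of `B`. -/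
def ExactOver (B : Set ℂ) : Prop :=
  ∀ (n : ℕ) (z : Fin n → ℂ), (∀ i, z i ∈ Pts) → (∀ i k, i ≠ k → ¬ SameOrbit (z i) (z k)) → (∀ i, z i ∉ B) →
    ∃ w : Fin n → ℂ, (∀ k, ∃ i, w k = z i ∨ w k = J (z i)) ∧ AlgebraicIndependent (fieldOf B) w

/-- `B` is a union of orbits of non-CM points. -/
def UnionOfOrbits (B : Set ℂ) : Prop := B ⊆ Pts ∧ ∀ z ∈ B, ∀ w ∈ Pts, SameOrbit z w → w ∈ B

/-- The points of `S` are not CM points and are in different orbits. -/
def Independent (S : Finset ℂ) : Prop :=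
  (∀ z ∈ S, z ∈ Pts) ∧ ∀ z ∈ S, ∀ w ∈ S, z ≠ w → ¬ SameOrbit z w

/-- The defect: the number of points minus the transcendence degree. -/
noncomputable def defect (S : Finset ℂ) : ℤ :=
  (S.card : ℤ) - ((Algebra.trdeg ℚ (fieldOf (S : Set ℂ))).toNat : ℤ)

/-! ### Preparations -/

open Pool.Agent.Q280.MD
open Pool.Agent.Q280.MS (Pt ptSetoid ptRefl subset_cl_pair)

/-- the system of the non-CM points with weight one -/
@[reducible] noncomputable def A : SysW where
  X := Pt
  r := ptSetoid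
  S x := {x.1, Pool.Agent.Q280.MS.J x.1}
  w _ := 1
  fin x := Pool.Agent.Q280.MS.sysJ.fin x
  cl h := Pool.Agent.Q280.MS.sysJ.cl h
  wr _ := rfl
  σ := ptRefl
  σσ x := Pool.Agent.Q280.MS.sysJ.σσ x
  σr h := Pool.Agent.Q280.MS.sysJ.σr h
  σS x := Pool.Agent.Q280.MS.sysJ.σS x
  wσ _ := rfl

theorem q_eq_iff {x y : A.X} : A.q x = A.q y ↔ SameOrbit x.1 y.1 :=
  ⟨fun h => Quotient.exact h, fun h => Quotient.sound h⟩

/-- the conjecture, in the form used in the proofs -/
def Conjecture : Prop :=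
  ∀ (n : ℕ) (z : Fin n → ℂ), (∀ i, z i ∈ Pts) → (∀ i k, i ≠ k → ¬ SameOrbit (z i) (z k)) →
    ∃ w : Fin n → ℂ, (∀ k, ∃ i, w k = z i ∨ w k = J (z i)) ∧ AlgebraicIndependent ℚ w

theorem ms_iff : ModularSchanuel ↔ Conjecture := by
  constructor
  · intro h n z h1 h2
    obtain ⟨w, hw1, hw2⟩ := h J (fun τ _ => rfl) n z (fun i => (h1 i).1) (fun i => (h1 i).2) h2
    refine ⟨w, fun k => ?_, hw2⟩
    rcases hw1 k with ⟨i, hi⟩ | ⟨i, hi⟩
    · exact ⟨i, Or.inl hi.symm⟩
    · exact ⟨i, Or.inr hi.symm⟩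
  · intro h J' hJ' n z h1 h2 h3
    obtain ⟨w, hw1, hw2⟩ := h n z (fun i => ⟨h1 i, h2 i⟩) h3
    refine ⟨w, fun k => ?_, hw2⟩
    obtain ⟨i, hi | hi⟩ := hw1 k
    · exact Or.inl ⟨i, hi.symm⟩
    · exact Or.inr ⟨i, by rw [hi]; exact hJ' _ (h1 i)⟩

theorem exists_cast {m m' : ℕ} (h : m = m') {K : Type} [Field K] [Algebra K ℂ] {p : ℂ → Prop}
    (hw : ∃ w : Fin m → ℂ, (∀ k, p (w k)) ∧ AlgebraicIndependent K w) :
    ∃ w : Fin m' → ℂ, (∀ k, p (w k)) ∧ AlgebraicIndependent K w := by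
  subst h
  exact hw

theorem sum_w {n : ℕ} (z : Fin n → A.X) : ∑ i, A.w (z i) = n := by
  show ∑ _i : Fin n, 1 = n
  simp

theorem range_numbers (z : ℂ) : ({z, J z} : Set ℂ) = {z, Pool.Agent.Q280.MS.J z} := rfl

theorem q_inj {n : ℕ} {z : Fin n → ℂ} (h1 : ∀ i, z i ∈ Pts) (h2 : ∀ i k, i ≠ k → ¬ SameOrbit (z i) (z k))
    (i k : Fin n) (h : A.q (⟨z i, h1 i⟩ : A.X) = A.q ⟨z k, h1 k⟩) : i = k := by
  by_contra hik
  exact h2 i k hik (q_eq_iff.mp h)

theorem mem_numbers {n : ℕ} {z : Fin n → ℂ} {a : ℂ} :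
    a ∈ (⋃ i, ({z i, Pool.Agent.Q280.MS.J (z i)} : Set ℂ)) ↔ ∃ i, a = z i ∨ a = J (z i) := by
  rw [mem_iUnion]
  exact exists_congr fun i => Iff.rfl

/-- the classes of the points of a set -/
def cl (B : Set ℂ) : Set A.O := {v | ∃ x : A.X, x.1 ∈ B ∧ A.q x = v}

theorem q_mem_cl {B : Set ℂ} (hB : UnionOfOrbits B) {x : A.X} : A.q x ∈ cl B ↔ x.1 ∈ B := by
  constructor
  · rintro ⟨y, hy, h⟩
    exact hB.2 _ hy _ x.2 (q_eq_iff.mp h)
  · intro h
    exact ⟨x, h, rfl⟩

theorem P_cl {B : Set ℂ} (hB : UnionOfOrbits B) : A.P (cl B) = ⋃ y ∈ B, {y, J y} := by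
  ext a
  simp only [mem_iUnion]
  constructor
  · rintro ⟨x, hx, ha⟩
    refine ⟨x.1, (q_mem_cl hB).mp hx, ?_⟩
    exact ha
  · rintro ⟨y, hy, ha⟩
    exact ⟨⟨y, hB.1 hy⟩, (q_mem_cl hB).mpr hy, ha⟩

open Classical in
theorem exact_iff {B : Set ℂ} (hB : UnionOfOrbits B) :
    ExactOver B ↔ ∀ V : Finset A.O, SysW.dfc V ≤ SysW.dfc (V.filter fun v => v ∈ cl B) := by
  constructor
  · intro h
    refine SysW.concentrated_of_family fun n z h1 h2 => ?_
    obtain ⟨w, hw1, hw2⟩ := exists_cast (p := fun a => ∃ i, a = (z i).1 ∨ a = J (z i).1) (sum_w z).symm (h n (fun i => (z i).1) (fun i => (z i).2)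
      (fun i k hik he => hik (h1 i k (q_eq_iff.mpr he))) (fun i hi => h2 i ((q_mem_cl hB).mpr hi)))
    refine ⟨w, fun k => ?_, ?_⟩
    · exact mem_numbers.mpr (hw1 k)
    · rw [P_cl hB]
      exact hw2
  · intro h n z h1 h2 h3
    have h4 := SysW.family_of_concentrated h (fun i => (⟨z i, h1 i⟩ : A.X)) (q_inj h1 h2)
      (fun i hi => h3 i ((q_mem_cl hB).mp hi))
    rw [P_cl hB] at h4
    obtain ⟨w, hw1, hw2⟩ := exists_cast (sum_w fun i => (⟨z i, h1 i⟩ : A.X)) h4
    exact ⟨w, fun k => mem_numbers.mp (hw1 k), hw2⟩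

open Classical in
theorem conj_iff : Conjecture ↔ ∀ V : Finset A.O, SysW.dfc V ≤ 0 := by
  constructor
  · intro h V
    obtain ⟨u, _, h1, h2, h3⟩ := SysW.exists_reps V univ fun v _ => by
      obtain ⟨x, rfl⟩ := Quotient.exists_rep v
      exact ⟨x, mem_univ _, rfl⟩
    obtain ⟨w, hw1, hw2⟩ := exists_cast (p := fun a => ∃ i, a = (u i).1 ∨ a = J (u i).1) (sum_w u).symm (h _ (fun i => (u i).1) (fun i => (u i).2)
      (fun i k hik he => hik (h3 i k (q_eq_iff.mpr he))))
    have h4 : ((∑ i, A.w (u i) : ℕ) : ℕ∞) ≤ A.rk (SysW.img u : Set A.O) := by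
      rw [SysW.rk_img]
      exact enat_le_eRk w hw2 fun k => subset_cl _ (mem_numbers.mpr (hw1 k))
    have h5 : SysW.img u = V := by
      ext v
      unfold SysW.img
      rw [Finset.mem_image]
      constructor
      · rintro ⟨i, _, rfl⟩
        exact h1 i
      · intro hv
        obtain ⟨k, hk⟩ := h2 v hv
        exact ⟨k, Finset.mem_univ _, hk⟩
    rw [← SysW.Wt_img u h3, h5, ← SysW.rN_le_iff] at h4
    unfold SysW.dfc
    omega
  · intro h n z h1 h2
    have h3 := h (SysW.img (A := A) fun i => ⟨z i, h1 i⟩)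
    unfold SysW.dfc at h3
    rw [SysW.Wt_img _ (q_inj h1 h2)] at h3
    have h4 : ∑ i, A.w (⟨z i, h1 i⟩ : A.X) ≤ SysW.rN (SysW.img (A := A) fun i => ⟨z i, h1 i⟩) := by omega
    rw [sum_w, SysW.rN_le_iff, SysW.rk_img] at h4
    obtain ⟨w, hw1, hw2⟩ := exists_of_le_eRk h4
    exact ⟨w, fun k => mem_numbers.mp (hw1 k), hw2⟩

open Classical in
theorem bounded_iff : BoundedError ↔ ∃ C : ℤ, ∀ V : Finset A.O, SysW.dfc V ≤ C := by
  constructor
  · rintro ⟨C, h⟩
    refine ⟨C, fun V => ?_⟩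
    obtain ⟨u, _, h1, h2, h3⟩ := SysW.exists_reps V univ fun v _ => by
      obtain ⟨x, rfl⟩ := Quotient.exists_rep v
      exact ⟨x, mem_univ _, rfl⟩
    obtain ⟨w, hw1, hw2⟩ := exists_cast (p := fun a => ∃ i, a = (u i).1 ∨ a = J (u i).1)
      (congrArg (· - C) (sum_w u).symm) (h _ (fun i => (u i).1) (fun i => (u i).2)
      (fun i k hik he => hik (h3 i k (q_eq_iff.mpr he))))
    have h4 : (((∑ i, A.w (u i)) - C : ℕ) : ℕ∞) ≤ A.rk (SysW.img u : Set A.O) := by
      rw [SysW.rk_img]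
      exact enat_le_eRk w hw2 fun k => subset_cl _ (mem_numbers.mpr (hw1 k))
    have h5 : SysW.img u = V := by
      ext v
      unfold SysW.img
      rw [Finset.mem_image]
      constructor
      · rintro ⟨i, _, rfl⟩
        exact h1 i
      · intro hv
        obtain ⟨k, hk⟩ := h2 v hv
        exact ⟨k, Finset.mem_univ _, hk⟩
    rw [← SysW.Wt_img u h3, h5, ← SysW.rN_le_iff] at h4
    unfold SysW.dfc
    omega
  · rintro ⟨C, h⟩
    refine ⟨C.toNat, fun n z h1 h2 => ?_⟩
    have h3 := h (SysW.img (A := A) fun i => ⟨z i, h1 i⟩)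
    unfold SysW.dfc at h3
    rw [SysW.Wt_img _ (q_inj h1 h2)] at h3
    have h4 : (∑ i, A.w (⟨z i, h1 i⟩ : A.X)) - C.toNat ≤ SysW.rN (SysW.img (A := A) fun i => ⟨z i, h1 i⟩) := by
      omega
    rw [sum_w, SysW.rN_le_iff, SysW.rk_img] at h4
    obtain ⟨w, hw1, hw2⟩ := exists_of_le_eRk h4
    exact ⟨w, fun k => mem_numbers.mp (hw1 k), hw2⟩

open Classical in
/-- the classes of a finite set of points -/
noncomputable def cls (S : Finset ℂ) : Finset A.O := (S.subtype fun z => 0 < z.im ∧ ¬ Pool.Agent.Q280.MS.CM z).image A.q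

open Classical in
theorem mem_cls {S : Finset ℂ} {v : A.O} : v ∈ cls S ↔ ∃ x : A.X, x.1 ∈ S ∧ A.q x = v := by
  unfold cls
  rw [Finset.mem_image]
  refine exists_congr fun x => ?_
  rw [Finset.mem_subtype]

theorem defect_eq {S : Finset ℂ} (hS : Independent S) : defect S = SysW.dfc (cls S) := by
  classical
  have h1 : A.Wt (cls S) = S.card := by
    rw [Finset.card_eq_sum_ones]
    unfold SysW.Wt cls
    rw [Finset.sum_image]
    · exact Finset.sum_subtype_of_mem (fun _ => 1) fun z hz => hS.1 z hz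
    · intro x hx y hy hxy
      have h2 := q_eq_iff.mp hxy
      by_contra hne
      exact hS.2 _ (Finset.mem_subtype.mp hx) _ (Finset.mem_subtype.mp hy) (fun h => hne (Subtype.ext h)) h2
  have h2 : A.rk (cls S : Set A.O) = M.eRk (⋃ y ∈ (S : Set ℂ), {y, J y}) := by
    refine le_antisymm ?_ (M.eRk_mono ?_)
    · rw [← M.eRk_closure_eq (⋃ y ∈ (S : Set ℂ), {y, J y})]
      refine M.eRk_mono (SysW.P_sub fun v hv => ?_)
      obtain ⟨x, hx, h3⟩ := mem_cls.mp hv
      refine ⟨x, h3, ?_⟩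
      refine Subset.trans ?_ (subset_cl _)
      exact subset_biUnion_of_mem (u := fun y => ({y, J y} : Set ℂ)) (Finset.mem_coe.mpr hx)
    · refine iUnion₂_subset fun y hy => ?_
      exact SysW.S_sub_P (A := A) (x := ⟨y, hS.1 y hy⟩) (Finset.mem_coe.mpr (mem_cls.mpr ⟨_, hy, rfl⟩))
  have h3 : (Algebra.trdeg ℚ (fieldOf (S : Set ℂ))).toNat = SysW.rN (cls S) := by
    unfold SysW.rN
    rw [h2]
    refine Pool.Agent.Q280.SD.trdeg_adjoin _ ?_
    rw [← h2]
    exact SysW.rk_ne_top _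
  unfold defect SysW.dfc
  rw [h1, h3]

theorem sub_indep {S S' : Finset ℂ} (hS : Independent S) (h : S' ⊆ S) : Independent S' :=
  ⟨fun z hz => hS.1 z (h hz), fun z hz w hw => hS.2 z (h hz) w (h hw)⟩

open Classical in
/-- a set is tight if and only if its set of classes is tight -/
theorem tight_iff {S : Finset ℂ} (hS : Independent S) :
    (∀ S' ⊂ S, defect S' < defect S) ↔ Tight SysW.dfc (cls S) := by
  constructor
  · intro h X hX
    obtain ⟨S', hS'⟩ : ∃ S' : Finset ℂ, S' = S.filter fun z => ∃ hz : 0 < z.im ∧ ¬ CM z, A.q ⟨z, hz⟩ ∈ X :=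
      ⟨_, rfl⟩
    have h1 : S' ⊆ S := by rw [hS']; exact Finset.filter_subset _ _
    have h2 : cls S' = X := by
      ext v
      rw [mem_cls]
      constructor
      · rintro ⟨x, hx, rfl⟩
        rw [hS', Finset.mem_filter] at hx
        exact hx.2.2
      · intro hv
        obtain ⟨x, hx, h3⟩ := mem_cls.mp (hX.1 hv)
        refine ⟨x, ?_, h3⟩
        rw [hS', Finset.mem_filter]
        exact ⟨hx, x.2, by rw [h3]; exact hv⟩
    have h3 : S' ≠ S := by
      rintro h4
      rw [h4] at h2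
      exact hX.2 (by rw [h2])
    have h4 := h S' (Finset.ssubset_iff_subset_ne.mpr ⟨h1, h3⟩)
    rw [defect_eq hS, defect_eq (sub_indep hS h1), h2] at h4
    exact h4
  · intro h S' hS'
    rw [defect_eq hS, defect_eq (sub_indep hS hS'.1)]
    apply h
    refine ⟨fun v hv => ?_, fun h1 => hS'.2 fun z hz => ?_⟩
    · obtain ⟨x, hx, h3⟩ := mem_cls.mp hv
      exact mem_cls.mpr ⟨x, hS'.1 hx, h3⟩
    · obtain ⟨x, hx, h3⟩ := mem_cls.mp (h1 (mem_cls.mpr ⟨(⟨z, hS.1 z hz⟩ : A.X), hz, rfl⟩))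
      have h4 := q_eq_iff.mp h3
      by_contra hcon
      have h5 : x.1 ≠ z := fun h6 => hcon (by rw [← h6]; exact hx)
      exact hS.2 _ (hS'.1 hx) _ hz h5 h4

open Classical in
/-- **The exceptional orbits of the modular Schanuel conjecture.** -/
theorem result : ∃ B : Set ℂ, UnionOfOrbits B ∧ (∀ z ∈ B, -(starRingEnd ℂ) z ∈ B) ∧
    -- the inequality is exact over `B`, and `B` is the smallest union of orbits with this property
    ExactOver B ∧ (∀ B' : Set ℂ, UnionOfOrbits B' → ExactOver B' → B ⊆ B') ∧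
    -- description of `B`, concentration of the defect on `B`
    (∀ z : ℂ, z ∈ B ↔ ∃ S : Finset ℂ, z ∈ S ∧ Independent S ∧ ∀ S' ⊂ S, defect S' < defect S) ∧
    (∀ S : Finset ℂ, Independent S → defect S ≤ defect (S.filter fun z => z ∈ B)) ∧
    -- the conjecture and the conjecture with a bounded error in terms of `B`
    (ModularSchanuel ↔ B = ∅) ∧
    (BoundedError ↔ ∃ F : Finset ℂ, (F : Set ℂ) ⊆ B ∧ ∀ z ∈ B, ∃ x ∈ F, SameOrbit x z) := by
  obtain ⟨f, hfdef⟩ : ∃ f : Finset A.O → ℤ, f = SysW.dfc := ⟨_, rfl⟩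
  have hf : ∀ V W, f V + f W ≤ f (V ∩ W) + f (V ∪ W) := by
    rw [hfdef]; exact SysW.dfc_supermod
  obtain ⟨B, hBdef⟩ : ∃ B : Set ℂ, B = {z | ∃ h : 0 < z.im ∧ ¬ CM z, A.q ⟨z, h⟩ ∈ Core f} := ⟨_, rfl⟩
  have hmem : ∀ x : A.X, x.1 ∈ B ↔ A.q x ∈ Core f := by
    intro x
    rw [hBdef]
    constructor
    · rintro ⟨_, h⟩
      exact h
    · intro h
      exact ⟨x.2, h⟩
  have hU : UnionOfOrbits B := by
    constructor
    · intro z hz
      rw [hBdef] at hz
      exact hz.1
    · intro z hz w hw hzw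
      have hz' : 0 < z.im ∧ ¬ CM z := by
        rw [hBdef] at hz
        exact hz.1
      have h1 := (hmem ⟨z, hz'⟩).mp hz
      have h2 : A.q (⟨z, hz'⟩ : A.X) = A.q ⟨w, hw⟩ := q_eq_iff.mpr hzw
      rw [h2] at h1
      exact (hmem ⟨w, hw⟩).mpr h1
  have hclB : cl B = Core f := by
    ext v
    constructor
    · rintro ⟨x, hx, rfl⟩
      exact (hmem x).mp hx
    · intro hv
      obtain ⟨x, rfl⟩ := Quotient.exists_rep v
      exact ⟨x, (hmem x).mpr hv, rfl⟩
  refine ⟨B, hU, ?_, ?_, ?_, ?_, ?_, ?_, ?_⟩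
  · intro z hz
    have hz' : 0 < z.im ∧ ¬ CM z := hU.1 hz
    obtain ⟨T, hT, hzT⟩ := (hmem ⟨z, hz'⟩).mp hz
    have h1 : Tight f (T.image SysW.τ) := by
      intro X hX
      have h2 : X.image SysW.τ ⊂ T := by
        have h3 : (X.image SysW.τ).image SysW.τ = X := by
          rw [Finset.image_image]
          have : (SysW.τ ∘ SysW.τ : A.O → A.O) = id := funext SysW.ττ
          rw [this, Finset.image_id]
        have h4 : (T.image SysW.τ).image SysW.τ = T := by
          rw [Finset.image_image]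
          have : (SysW.τ ∘ SysW.τ : A.O → A.O) = id := funext SysW.ττ
          rw [this, Finset.image_id]
        refine ⟨?_, fun h5 => hX.2 ?_⟩
        · have := Finset.image_subset_image (f := SysW.τ) hX.1
          rwa [h4] at this
        · have := Finset.image_subset_image (f := SysW.τ) h5
          rwa [h3] at this
      have h5 := hT _ h2
      rw [hfdef] at h5 ⊢
      rw [SysW.dfc_image] at h5
      rw [SysW.dfc_image]
      exact h5
    have h2 : A.q (A.σ ⟨z, hz'⟩) ∈ Core f := ⟨_, h1, Finset.mem_image.mpr ⟨_, hzT, rfl⟩⟩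
    exact (hmem (A.σ ⟨z, hz'⟩)).mpr h2
  · rw [exact_iff hU, hclB]
    intro V
    rw [← hfdef]
    exact le_inter_core hf V
  · intro B' hB' hex
    rw [exact_iff hB'] at hex
    have h1 : Core f ⊆ cl B' := core_min (f := f) (by rw [hfdef]; exact hex)
    intro z hz
    have hz' : 0 < z.im ∧ ¬ CM z := hU.1 hz
    exact (q_mem_cl (x := ⟨z, hz'⟩) hB').mp (h1 ((hmem ⟨z, hz'⟩).mp hz))
  · intro z
    constructor
    · intro hz
      have hz' : 0 < z.im ∧ ¬ CM z := hU.1 hz
      obtain ⟨T, hT, hzT⟩ := (hmem ⟨z, hz'⟩).mp hz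
      have hg : ∃ g : A.O → A.X, (∀ v, A.q (g v) = v) ∧ g (A.q ⟨z, hz'⟩) = ⟨z, hz'⟩ := by
        refine ⟨fun v => if v = A.q ⟨z, hz'⟩ then ⟨z, hz'⟩ else Quotient.out v, fun v => ?_, if_pos rfl⟩
        by_cases hv : v = A.q ⟨z, hz'⟩
        · simp only [if_pos hv]
          exact hv.symm
        · simp only [if_neg hv]
          exact Quotient.out_eq v
      obtain ⟨g, hg1, hg2⟩ := hg
      have hS : Independent (T.image fun v => (g v).1) := by
        constructor
        · intro y hy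
          rw [Finset.mem_image] at hy
          obtain ⟨v, _, rfl⟩ := hy
          exact (g v).2
        · intro y hy w hw hne h
          rw [Finset.mem_image] at hy hw
          obtain ⟨v, _, rfl⟩ := hy
          obtain ⟨v', _, rfl⟩ := hw
          have h1 := q_eq_iff.mpr h
          rw [hg1, hg1] at h1
          exact hne (by rw [h1])
      have hcls : cls (T.image fun v => (g v).1) = T := by
        ext v
        rw [mem_cls]
        constructor
        · rintro ⟨x, hx, rfl⟩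
          rw [Finset.mem_image] at hx
          obtain ⟨v, hv, h1⟩ := hx
          have h2 : g v = x := Subtype.ext h1
          rw [← h2, hg1]
          exact hv
        · intro hv
          exact ⟨g v, Finset.mem_image.mpr ⟨v, hv, rfl⟩, hg1 v⟩
      refine ⟨_, ?_, hS, ?_⟩
      · rw [Finset.mem_image]
        exact ⟨_, hzT, by rw [hg2]⟩
      · rw [tight_iff hS, hcls, ← hfdef]
        exact hT
    · rintro ⟨S, hzS, hS, h⟩
      rw [tight_iff hS, ← hfdef] at h
      exact (hmem ⟨z, hS.1 z hzS⟩).mpr ⟨_, h, mem_cls.mpr ⟨_, hzS, rfl⟩⟩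
  · intro S hS
    rw [defect_eq hS, defect_eq (sub_indep hS (Finset.filter_subset _ _))]
    have h1 : cls (S.filter fun z => z ∈ B) = (cls S).filter fun v => v ∈ Core f := by
      ext v
      rw [mem_cls, Finset.mem_filter, mem_cls]
      constructor
      · rintro ⟨x, hx, rfl⟩
        rw [Finset.mem_filter] at hx
        exact ⟨⟨x, hx.1, rfl⟩, (hmem x).mp hx.2⟩
      · rintro ⟨⟨x, hx, rfl⟩, h2⟩
        exact ⟨x, Finset.mem_filter.mpr ⟨hx, (hmem x).mpr h2⟩, rfl⟩
    rw [h1, ← hfdef]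
    exact le_inter_core hf _
  · rw [ms_iff, conj_iff]
    have h1 : B = ∅ ↔ Core f = ∅ := by
      rw [← hclB]
      constructor
      · intro h
        rw [h]
        ext v
        simp only [mem_empty_iff_false, iff_false]
        rintro ⟨x, hx, _⟩
        exact hx
      · intro h
        rw [Set.eq_empty_iff_forall_notMem] at h ⊢
        intro z hz
        exact h _ ⟨⟨z, hU.1 hz⟩, hz, rfl⟩
    rw [h1, core_empty_iff]
    refine forall_congr' fun V => ?_
    rw [hfdef, SysW.dfc_empty]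
  · rw [bounded_iff]
    have h1 := core_finite_iff hf
    rw [hfdef] at h1
    rw [← h1]
    constructor
    · intro h
      refine ⟨h.toFinset.image fun v => (Quotient.out v).1, ?_, fun z hz => ?_⟩
      · intro y hy
        rw [Finset.mem_coe, Finset.mem_image] at hy
        obtain ⟨v, hv, rfl⟩ := hy
        rw [Set.Finite.mem_toFinset, ← hfdef, ← Quotient.out_eq v] at hv
        exact (hmem (Quotient.out v)).mpr hv
      · have hz' : 0 < z.im ∧ ¬ CM z := hU.1 hz
        have h2 : A.q ⟨z, hz'⟩ ∈ h.toFinset := by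
          rw [Set.Finite.mem_toFinset, ← hfdef]
          exact (hmem ⟨z, hz'⟩).mp hz
        refine ⟨_, Finset.mem_image.mpr ⟨_, h2, rfl⟩, ?_⟩
        exact q_eq_iff.mp (Quotient.out_eq (A.q (⟨z, hz'⟩ : A.X)))
    · rintro ⟨F, hFB, hF⟩
      refine ((cls F).finite_toSet).subset ?_
      intro v hv
      obtain ⟨y, rfl⟩ := Quotient.exists_rep v
      rw [← hfdef] at hv
      obtain ⟨x, hx, hxy⟩ := hF y.1 ((hmem y).mpr hv)
      refine Finset.mem_coe.mpr (mem_cls.mpr ⟨⟨x, hU.1 (hFB hx)⟩, hx, ?_⟩)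
      exact q_eq_iff.mpr hxy

end Pool.Agent.Results.MP_47914d_nt.ExceptionalOrbits
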