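import Pool.Agent.Q189.JM.Iso

/-!
# The modular Schanuel conjecture in the isogeny classes of algebraic invariants: a measure independent of the isogenies

Let `z_1, …, z_k` be points of the upper half-plane with algebraic invariants `α_i = j(z_i)`, and let `u_1, …, u_n` be any points
in their `GL_2^+(ℚ)`-orbits, several points in the same orbit allowed: `u_l = (a_l z_{b(l)} + b_l) / (c_l z_{b(l)} + d_l)`. The
numbers `j(u_l)` are algebraic. The modular Schanuel conjecture predicts that the transcendence degree of the numbers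
`u_l`, `j(u_l)` is the number of orbits (if the points are not CM points and the `z_i` are inequivalent): all relations
between the `u_l` over the algebraic numbers are consequences of the equations of the special variety
`{v : v_l = g_l x_{b(l)}}`. We prove this with a measure for almost all tuples of invariants, for ALL points `z_i` above
them, ALL matrices `g_l` with integral entries at most `H`, with an exponent which does not depend on the matrices, and
we add the number `2 π i` and ALL logarithms `λ_i` of the invariants `α_i = j(z_i)`: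

* `|P(2 π i, u, λ)| ≥ H ^ (-B)` for every polynomial `P` of degree at most `d` whose coefficients are algebraic integers of a
  number field of degree at most `D` with conjugates at most `H`, unless `P` vanishes identically on the special
  variety (for all `θ`, `μ`);
* relative to `2 π i` and to arbitrary complex numbers `ζ_1, …, ζ_g`: near relations over `ℤ[2 π i, ζ, α]` between the numbers
  `u_l`, `λ_i` are near relations on the whole special variety,
  `|P(v, μ, 2 π i, ζ, α)| ≤ (H max(1, |x|, |v|, |μ|)) ^ B |P(u, λ, 2 π i, ζ, α)|` for all `P` over the integers of degree at most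
  `d`, height at most `H`, all complex `x`, `μ`, and `v_l = g_l x_{b(l)}`.

For `n = k` and one point in each orbit the special variety is the whole space: the numbers `2 π i`, `u_1, …, u_k`,
`λ_1, …, λ_k` have the measure `H ^ (-B)`, over all number fields of degree at most `D` (they may contain the `α_i`, and the
`j(u_l)` if their degree is bounded).

`Ints m T` is the set of the algebraic integers of degree at most `m` all of whose conjugates are at most `T` in
absolute value. All but a proportion `O(T ^ (-c))` of the tuples in `Ints m T ^ k` have these properties; `B` depends on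
`k`, `g`, `n`, `d`, `D`, `m` only. The assertions hold for all `H` in a long interval from `H₁` to `H₁ ^ exp (T ^ c)`, for
every sufficiently large `H₁`; and, with one exceptional set of tuples for all `H`, for a set of `H` of upper density at
least `1 - T ^ (-c)` on the doubly logarithmic scale, in particular for arbitrarily large `H`.

Proof. (1) For `Im z` large the numbers are rational functions of `2 π i`, `j(z)`, `log j(z)` and the values at `1/j(z)` of
G-functions (helper120). (2) The machine for near relations of arbitrary height at almost all tuples (helper246, and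
`Pool.Agent.Q189.MF`). (3) `Pool.Agent.Q189.JM`: reduction of all points to the fundamental domain by matrices with entries at
most `H ^ 3`, all branches of the logarithms, interpolation. (4) The measure over number fields by norms of
polynomials and the transcendence measure of `π`. (5) The substitution of the fractional linear maps changes degrees and
heights by bounded factors and powers; `|c x + d|` is bounded below by `(c x + d)(a - c v) = a d - b c`.
-/

set_option autoImplicit false

namespace Pool.Agent.Results.MP_47914d_nt.IsogenyClassesMeasure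

/-- the normalised Eisenstein series of weight `4` -/
noncomputable def E4 (τ : ℂ) : ℂ :=
  1 + 240 * ∑' m : ℕ, ((ArithmeticFunction.sigma 3 (m + 1) : ℕ) : ℂ) *
    Complex.exp (2 * (Real.pi : ℂ) * Complex.I * ((m : ℂ) + 1) * τ)

/-- the normalised Eisenstein series of weight `6` -/
noncomputable def E6 (τ : ℂ) : ℂ :=
  1 - 504 * ∑' m : ℕ, ((ArithmeticFunction.sigma 5 (m + 1) : ℕ) : ℂ) *
    Complex.exp (2 * (Real.pi : ℂ) * Complex.I * ((m : ℂ) + 1) * τ)

/-- the modular invariant `j = q⁻¹ + 744 + 196884 q + ⋯` -/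
noncomputable def J (τ : ℂ) : ℂ := 1728 * E4 τ ^ 3 / (E4 τ ^ 3 - E6 τ ^ 2)

/-- the algebraic integers of degree at most `m` all of whose conjugates have absolute value at most `T` -/
def Ints (m T : ℕ) : Set ℂ :=
  {α | IsIntegral ℤ α ∧ (minpoly ℚ α).natDegree ≤ m ∧ ∀ z : ℂ, Polynomial.aeval z (minpoly ℚ α) = 0 → ‖z‖ ≤ T}

/-- `v = (a x + b) / (c x + d)` for the matrix with the entries `a, b, c, d = G 0, G 1, G 2, G 3` (if its determinant is not zero,
the equation implies that `c x + d` is not zero). -/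
def Image (G : Fin 4 → ℤ) (x v : ℂ) : Prop := ((G 2 : ℂ) * x + G 3) * v = G 0 * x + G 1

/-- the constants `2 π i, ζ_1, …, ζ_g` and `α_1, …, α_k` -/
noncomputable def constants {g k : ℕ} (ζ : Fin g → ℂ) (α : Fin k → ℂ) : Fin (g + 1) ⊕ Fin k → ℂ :=
  Sum.elim (Fin.cons (2 * Real.pi * Complex.I) ζ : Fin (g + 1) → ℂ) α

/-- The two assertions at the height `H`, for all points `z_i` above the invariants `α_i`, all logarithms `λ_i` of the
invariants and all points `u_l = g_l z_{b(l)}`, `l ≤ n`: the measure over number fields, and the transfer of near relations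
over `ℤ[2 π i, ζ, α]`. -/
def Good {k g : ℕ} (n d D B : ℕ) (ζ : Fin g → ℂ) (α : Fin k → ℂ) (H : ℝ) : Prop :=
  ∀ z : Fin k → ℂ, (∀ i, 0 < (z i).im ∧ J (z i) = α i ∧ ‖z i‖ ≤ H ∧ 1 ≤ H * (z i).im) →
    ∀ lam : Fin k → ℂ, (∀ i, Complex.exp (lam i) = α i ∧ ‖lam i‖ ≤ H) →
    ∀ (b : Fin n → Fin k) (G : Fin n → Fin 4 → ℤ),
    (∀ l, (∀ i, |((G l i : ℤ) : ℝ)| ≤ H) ∧ G l 0 * G l 3 - G l 1 * G l 2 ≠ 0) →
    ∀ u : Fin n → ℂ, (∀ l, Image (G l) (z (b l)) (u l)) →
    (∀ (K : IntermediateField ℚ ℂ) [FiniteDimensional ℚ K], Module.finrank ℚ K ≤ D →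
      ∀ P : MvPolynomial (Option (Fin n ⊕ Fin k)) K, P.totalDegree ≤ d →
        (∀ e, IsIntegral ℤ (P.coeff e) ∧ ∀ σ : K →ₐ[ℚ] ℂ, ‖σ (P.coeff e)‖ ≤ H) →
        (∃ (x : Fin k → ℂ) (v : Fin n → ℂ) (μ : Fin k → ℂ) (θ : ℂ), (∀ l, Image (G l) (x (b l)) (v l)) ∧
          MvPolynomial.aeval (fun o : Option (Fin n ⊕ Fin k) => o.elim θ (Sum.elim v μ)) P ≠ 0) →
        1 ≤ H ^ B * ‖MvPolynomial.aeval (fun o : Option (Fin n ⊕ Fin k) => o.elim (2 * (Real.pi : ℂ) * Complex.I)
          (Sum.elim u lam)) P‖) ∧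
    ∀ P : MvPolynomial ((Fin n ⊕ Fin k) ⊕ (Fin (g + 1) ⊕ Fin k)) ℤ, P.totalDegree ≤ d →
      (∀ e, |((P.coeff e : ℤ) : ℝ)| ≤ H) →
      ∀ (x : Fin k → ℂ) (v : Fin n → ℂ) (μ : Fin k → ℂ), (∀ l, Image (G l) (x (b l)) (v l)) →
        ‖MvPolynomial.aeval (Sum.elim (Sum.elim v μ) (constants ζ α)) P‖ ≤
          (H * max 1 ‖(x, v, μ)‖) ^ B * ‖MvPolynomial.aeval (Sum.elim (Sum.elim u lam) (constants ζ α)) P‖

/-- For all `k`, `g`, `n`, `d`, `D` and `m ≥ 1` there are `B`, `C` and `c > 0` such that for all `T ≥ 1`: for all but a proportion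
`C T ^ (-c)` of the tuples `α` of elements of `Ints m T` the assertions hold for all `H` with `H₁ ≤ H ≤ H₁ ^ exp (T ^ c)`, for
each large `H₁`; and, with one exceptional set for all `H`, for a set of `H` of upper density at least `1 - T ^ (-c)` on the
doubly logarithmic scale. -/
theorem result (k g n d D m : ℕ) (hm : 1 ≤ m) :
    ∃ (B : ℕ) (C c : ℝ), 0 < c ∧ ∀ T : ℕ, 1 ≤ T →
    (∃ H₀ : ℝ, ∀ H₁ : ℝ, H₀ ≤ H₁ → ∀ ζ : Fin g → ℂ,
      (({α : Fin k → ℂ | (∀ i, α i ∈ Ints m T) ∧ ¬ ∀ H : ℝ, H₁ ≤ H → H ≤ H₁ ^ Real.exp ((T : ℝ) ^ c) →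
        Good n d D B ζ α H}.ncard : ℕ) : ℝ) ≤ C * (T : ℝ) ^ (-c) * (((Ints m T).ncard : ℕ) : ℝ) ^ k) ∧
    ∀ ζ : Fin g → ℂ, (({α : Fin k → ℂ | (∀ i, α i ∈ Ints m T) ∧ ¬ ∀ N₀ : ℕ, ∃ N, N₀ ≤ N ∧
      (({s : ℕ | s < N ∧ ¬ ∀ H : ℝ, 2 ^ (2 ^ s) ≤ H → H ≤ 2 ^ (2 ^ (s + 1)) →
        Good n d D B ζ α H}.ncard : ℕ) : ℝ) ≤ (T : ℝ) ^ (-c) * N}.ncard : ℕ) : ℝ) ≤
          C * (T : ℝ) ^ (-c) * (((Ints m T).ncard : ℕ) : ℝ) ^ k := by
  have h4 : E4 = Pool.Agent.TH21.MS.E4 := funext Pool.Agent.Y120.J.E4_same
  have h6 : E6 = Pool.Agent.TH21.MS.E6 := funext Pool.Agent.Y120.J.E6_same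
  have hJ : J = Pool.Agent.TH21.MS.jj := by
    funext τ
    unfold J Pool.Agent.TH21.MS.jj
    rw [h4, h6]
  have hG : ∀ (B : ℕ) (ζ : Fin g → ℂ) (α : Fin k → ℂ) (H : ℝ), Good n d D B ζ α H ↔ Pool.Agent.Q189.JM.Gd3 n d D B ζ α H := by
    intro B ζ α H
    unfold Good Pool.Agent.Q189.JM.Gd3 constants Image Pool.Agent.Q189.JM.cv Pool.Agent.Q189.JM.House
    rw [hJ]
    exact Iff.rfl
  simp only [hG]
  exact Pool.Agent.Q189.JM.out3 k g n d D m hm

end Pool.Agent.Results.MP_47914d_nt.IsogenyClassesMeasure
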