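import Pool.Agent.Q138.PS.VJ
import Pool.Agent.Results.MP_47914d_nt.IsogenyWindows

/-!
# Tuples of points isogenous to points with integral invariants close to `± α P(n)`

Let `q ≥ 2` and let `𝒞` be a countable set of complex numbers. Outside a set of real numbers of Hausdorff dimension at most
`q / (q + 1 / (q 2 ^ (q - 1)))` (that is `8 / 9` for `q = 2`) every `α > 0` has the following property. There is `η > 0` such that
for ALL `r`, `δ`, `d`, ALL `w_1, ..., w_g` in `𝒞` and both signs `ε` there is `κ > 0` such that for all large `N` and ALL integral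
polynomials `P` of degree `q` with positive leading coefficient and coefficients of size at most `N ^ η`: for all but
`N ^ (1 - κ)` of the `n ≤ N`, for ALL `r`-tuples of distinct integers `t_1, ..., t_r` with `|t_i - ⌊α P(n)⌋| ≤ N ^ κ` and ALL points
`z_i` equivalent under `GL_2^+(ℚ)` to points `v_i` of the upper half-plane with `j(v_i) = ε t_i`, every relation of degree at most
`δ` over any number field of degree at most `d` between `2 π i, w_1, ..., w_g` and `z_1, ..., z_r` becomes trivial after the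
substitution of `2 π i, w_1, ..., w_g`.
-/

set_option autoImplicit false

namespace Pool.Agent.Results.MP_47914d_nt.IsogenyTuplesAlongRealMultiples

open Finset Filter Topology
open Pool.Agent.Q138.PS
open IsogenyWindows (Isogenous constants generic)

/-- For all `r`-tuples of distinct integers `n_i` in `S` and all points `z_i` equivalent to points with invariants `n_i` every
polynomial of degree at most `δ` over a number field of degree at most `d` which vanishes at `2 π i, w, z` is zero after the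
substitution of `2 π i, w`. -/
def AllFree (r δ d : ℕ) {g : ℕ} (w : Fin g → ℂ) (S : Set ℤ) : Prop :=
  ∀ n : Fin r → ℤ, Function.Injective n → (∀ i, n i ∈ S) → ∀ z : Fin r → ℂ, (∀ i, Isogenous (n i) (z i)) →
    ∀ K : IntermediateField ℚ ℂ, FiniteDimensional ℚ K → Module.finrank ℚ K ≤ d →
    ∀ P : MvPolynomial (Option (Fin g) ⊕ Fin r) K, P.totalDegree ≤ δ →
      MvPolynomial.aeval (Sum.elim (constants w) z) P = 0 → MvPolynomial.aeval (generic (k := r) w) P = 0

/-- **Theorem.** -/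
theorem result (q : ℕ) (hq : 2 ≤ q) (𝒞 : Set ℂ) (h𝒞 : 𝒞.Countable) :
    ∃ E : Set ℝ, dimH E ≤ ENNReal.ofReal (q / (q + 1 / ((q : ℝ) * 2 ^ (q - 1)))) ∧ ∀ α : ℝ, 0 < α → α ∉ E →
      ∃ η : ℝ, 0 < η ∧ ∀ (r δ d g : ℕ) (w : Fin g → ℂ), (∀ i, w i ∈ 𝒞) → ∀ ε : ℤ, ε = 1 ∨ ε = -1 →
      ∃ κ : ℝ, 0 < κ ∧ ∀ᶠ N : ℕ in atTop, ∀ P : Polynomial ℤ, P.natDegree = q → 0 < P.leadingCoeff →
        (∀ j, |((P.coeff j : ℤ) : ℝ)| ≤ (N : ℝ) ^ η) →
        (badG (fun S => AllFree r δ d w ((fun t : ℕ => ε * (t : ℤ)) '' S)) ⌊(N : ℝ) ^ κ⌋₊ α P N : ℝ) ≤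
          (N : ℝ) ^ (1 - κ) := by
  classical
  have hC : Countable {x : ℂ // x ∈ 𝒞} := h𝒞.to_subtype
  obtain ⟨E, hE, hg⟩ := win_int (ι := (ℕ × ℕ × ℕ) × (Σ g : ℕ, Fin g → {x : ℂ // x ∈ 𝒞})) q hq
    (fun i => AllFree i.1.1 i.1.2.1 i.1.2.2 (fun j => (i.2.2 j : ℂ)))
    (fun i S S' hS h n hn hnS => h n hn fun j => hS (hnS j))
    (fun i ε hε => by
      obtain ⟨E, hE⟩ := IsogenyWindows.result i.2.1 i.1.1 i.1.2.2 i.1.2.1
      refine ⟨E, i.2.1 + 2, fun N H hN => ?_⟩
      obtain ⟨S, hS, h⟩ := hE N H hN (fun j => (i.2.2 j : ℂ)) ε hε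
      exact ⟨S, hS, fun n hn hnS => h n hn hnS⟩)
  refine ⟨E, hE, fun α hα hαE => ?_⟩
  obtain ⟨η, hη, h1⟩ := hg α hα hαE
  refine ⟨η, hη, fun r δ d g w hw ε hε => ?_⟩
  exact h1 ((r, δ, d), ⟨g, fun j => ⟨w j, hw j⟩⟩) ε hε

end Pool.Agent.Results.MP_47914d_nt.IsogenyTuplesAlongRealMultiples
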