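import Pool.Agent.Q280.MS.SysJ

/-!
# Real forms of the modular Schanuel conjecture

`ModularSchanuel` is the conjecture in the form of the frozen statement.  We prove that it is equivalent to
statements about *real* numbers which concern only tuples with a symmetry and with prescribed members.

Call a tuple `z_1, …, z_n` of points of the upper half-plane *admissible* (for a finite set `L` of points) if the `z_i`
are not CM points and pairwise not equivalent under `GL_2^+(ℚ)`, if the set of their classes is stable under the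
reflection `z ↦ - conj z`, and if each point of `L` is equivalent to some `z_i`.  The points of `L` can be any closed form
points, that is, points of the smallest set `E` of non-CM points such that `z` is in `E` as soon as, for some finite subset
`F` of `E`, the number `z` is algebraic over `ℚ(F, j(F))` or `j(z)` is algebraic over `ℚ(F, j(F), z)`.  The dimension `n`
can be restricted to any infinite set `N` of integers.

* First form: among the `4 n` real numbers `Re z_i, Im z_i, Re j(z_i), Im j(z_i)` there are `n` algebraically independent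
  ones, for every admissible tuple with `n` in `N`.
* Second form, for any finite set `𝒢` of maps `g` of the upper half-plane to itself, containing the identity, such that
  `g(z)` is algebraic over `ℚ(z, conj z)` for all `z` (linear fractional maps with real algebraic coefficients,
  `z ↦ i |z|`, `z ↦ i Im z`, …): for every admissible tuple with `n` in `N` the transcendence degree of the field generated
  by the real numbers `Re z_i`, `Im z_i`, `Re j(g z_i)`, `Im j(g z_i)` is at least the number of the classes of non-CM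
  points among the points `g z_i`, `- conj (g z_i)`.

Proof: for finite sets `V` of classes the transcendence degree `r(V)` of the field generated by the points and the values
of `j` is submodular, and the number of classes is modular; so if the inequality `r(V) ≥ |V|` fails for `V` and its
reflection, it fails for their intersection or for their union.  Adding the class of a point `x` such that there is a
relation for `x`, `j(x)` over the field of `V` does not repair a failure.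
-/

set_option autoImplicit false

open Matroid Set Q241.SX

namespace Pool.Agent.Results.MP_47914d_nt.RealForm

/-- The modular Schanuel conjecture, the frozen statement verbatim. -/
def ModularSchanuel : Prop :=
  ∀ J : ℂ → ℂ,
    (∀ τ : ℂ, 0 < τ.im →
      J τ = 1728 * (60 * ∑' p : ℤ × ℤ, 1 / ((p.1 : ℂ) * τ + (p.2 : ℂ)) ^ 4) ^ 3 /
        ((60 * ∑' p : ℤ × ℤ, 1 / ((p.1 : ℂ) * τ + (p.2 : ℂ)) ^ 4) ^ 3 -
          27 * (140 * ∑' p : ℤ × ℤ, 1 / ((p.1 : ℂ) * τ + (p.2 : ℂ)) ^ 6) ^ 2)) →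
    ∀ (n : ℕ) (z : Fin n → ℂ),
      (∀ i, 0 < (z i).im) →
      (∀ i, ¬ ∃ a b c : ℤ, (a ≠ 0 ∨ b ≠ 0 ∨ c ≠ 0) ∧
          (a : ℂ) * z i ^ 2 + (b : ℂ) * z i + (c : ℂ) = 0) →
      (∀ i k, i ≠ k → ¬ ∃ a b c d : ℚ, 0 < a * d - b * c ∧
          z k * ((c : ℂ) * z i + (d : ℂ)) = (a : ℂ) * z i + (b : ℂ)) →
      ∃ w : Fin n → ℂ,
        (∀ m, w m ∈ Set.range z ∪ Set.range (fun i => J (z i))) ∧
        AlgebraicIndependent ℚ w

/-- The modular invariant `j` on the upper half-plane, by lattice sums (as in the frozen statement). -/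
noncomputable def J (τ : ℂ) : ℂ :=
  1728 * (60 * ∑' p : ℤ × ℤ, 1 / ((p.1 : ℂ) * τ + (p.2 : ℂ)) ^ 4) ^ 3 /
    ((60 * ∑' p : ℤ × ℤ, 1 / ((p.1 : ℂ) * τ + (p.2 : ℂ)) ^ 4) ^ 3 -
      27 * (140 * ∑' p : ℤ × ℤ, 1 / ((p.1 : ℂ) * τ + (p.2 : ℂ)) ^ 6) ^ 2)

/-- `z` is a CM point. -/
def CM (z : ℂ) : Prop :=
  ∃ a b c : ℤ, (a ≠ 0 ∨ b ≠ 0 ∨ c ≠ 0) ∧ (a : ℂ) * z ^ 2 + (b : ℂ) * z + (c : ℂ) = 0

/-- `w = (a z + b) / (c z + d)` for a rational matrix of positive determinant. -/
def Equivalent (z w : ℂ) : Prop :=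
  ∃ a b c d : ℚ, 0 < a * d - b * c ∧ w * ((c : ℂ) * z + (d : ℂ)) = (a : ℂ) * z + (b : ℂ)

/-- The reflection `z ↦ - conj z` of the upper half-plane. -/
noncomputable def refl (z : ℂ) : ℂ := -(starRingEnd ℂ) z

/-- The closed form points: the smallest set `E` of non-CM points of the upper half-plane which contains `z` as soon as,
for some finite `F ⊆ E`, `z` is algebraic over `ℚ(F, j(F))` or `j(z)` is algebraic over `ℚ(F, j(F), z)`. -/
inductive ClosedForm : ℂ → Prop
  | intro (F : Finset ℂ) (z : ℂ) (hF : ∀ y ∈ F, ClosedForm y) (him : 0 < z.im) (hcm : ¬ CM z)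
      (h : IsAlgebraic (IntermediateField.adjoin ℚ ((F : Set ℂ) ∪ J '' (F : Set ℂ))) z ∨
        IsAlgebraic (IntermediateField.adjoin ℚ (insert z ((F : Set ℂ) ∪ J '' (F : Set ℂ)))) (J z)) :
      ClosedForm z

/-- The tuples which are considered: non-CM points of the upper half-plane, pairwise not equivalent, such that the
set of their classes is stable under the reflection and contains the classes of the points of `L`. -/
structure Admissible (L : Finset ℂ) {n : ℕ} (z : Fin n → ℂ) : Prop where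
  im_pos : ∀ i, 0 < (z i).im
  not_cm : ∀ i, ¬ CM (z i)
  inequivalent : ∀ i k, i ≠ k → ¬ Equivalent (z i) (z k)
  reflection : ∀ i, ∃ k, Equivalent (refl (z i)) (z k)
  prescribed : ∀ x ∈ L, ∃ i, Equivalent x (z i)

/-- The real numbers `Re z_i`, `Im z_i`, `Re j(g z_i)`, `Im j(g z_i)` with `g` in `𝒢`. -/
def Numbers (𝒢 : Set (ℂ → ℂ)) {n : ℕ} (z : Fin n → ℂ) : Set ℝ :=
  {y | ∃ i, y = (z i).re ∨ y = (z i).im ∨ ∃ g ∈ 𝒢, y = (J (g (z i))).re ∨ y = (J (g (z i))).im}

/-- `𝒢` is a finite set of maps `g` of the upper half-plane to itself which contains the identity, and `g(z)` is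
algebraic over `ℚ(z, conj z)` for all `g` in `𝒢` and all `z`. -/
def Maps (𝒢 : Set (ℂ → ℂ)) : Prop :=
  𝒢.Finite ∧ id ∈ 𝒢 ∧ ∀ g ∈ 𝒢, ∀ z : ℂ, 0 < z.im →
    0 < (g z).im ∧ IsAlgebraic (IntermediateField.adjoin ℚ {z, (starRingEnd ℂ) z}) (g z)

/-- The second form for one tuple `z`: for all pairwise not equivalent non-CM points `u_1, …, u_m` among the points
`g z_i`, `refl (g z_i)` there are `m` algebraically independent ones among the numbers `Numbers 𝒢 z`. -/
def Bound (𝒢 : Set (ℂ → ℂ)) {n : ℕ} (z : Fin n → ℂ) : Prop :=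
  ∀ (m : ℕ) (u : Fin m → ℂ),
    (∀ k, ∃ g ∈ 𝒢, ∃ i, u k = g (z i) ∨ u k = refl (g (z i))) → (∀ k, ¬ CM (u k)) →
    (∀ k l, k ≠ l → ¬ Equivalent (u k) (u l)) →
    ∃ w : Fin m → ℝ, (∀ k, w k ∈ Numbers 𝒢 z) ∧ AlgebraicIndependent ℚ w

/-! ### Preparations -/

open Pool.Agent.Q280.MS (sysJ Sys Pt ptRefl cl_cj re_mem_cl im_mem_cl mem_cl_re_im sysJ_step sysJ_sup)

theorem cm_iff (z : ℂ) : CM z ↔ Pool.Agent.Q280.MS.CM z := Iff.rfl

theorem eqv_iff (z w : ℂ) : Equivalent z w ↔ Pool.Agent.Q280.MS.Equivalent z w := Iff.rfl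

theorem q_eq_iff {x y : Pt} : sysJ.q x = sysJ.q y ↔ Equivalent x.1 y.1 :=
  ⟨fun h => Quotient.exact h, fun h => Quotient.sound h⟩

theorem cl_alg_of {X : Set ℂ} {a : ℂ} (h : IsAlgebraic (IntermediateField.adjoin ℚ X) a) :
    a ∈ M.closure X := cl_of_isAlgebraic h

/-- the number of inequivalent points is a lower bound for the rank, if the inequality does not fail -/
theorem le_eRk (hno : ∀ V, ¬ sysJ.Bad V) {m : ℕ} (u : Fin m → Pt)
    (hu : ∀ i k, Equivalent (u i).1 (u k).1 → i = k) {Y : Set ℂ}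
    (hY : ∀ k, (u k).1 ∈ M.closure Y ∧ J (u k).1 ∈ M.closure Y) : (m : ℕ∞) ≤ M.eRk Y := by
  classical
  have h1 := hno (Finset.univ.image fun i => sysJ.q (u i))
  unfold Sys.Bad at h1
  push Not at h1
  rw [Sys.card_image (A := sysJ) u fun i k h => hu i k (q_eq_iff.mp h)] at h1
  have h2 : sysJ.d * m = m := one_mul m
  rw [h2] at h1
  refine h1.trans ?_
  rw [← M.eRk_closure_eq Y]
  refine M.eRk_mono (Sys.P_sub fun v hv => ?_)
  rw [Finset.mem_coe, Finset.mem_image] at hv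
  obtain ⟨i, _, rfl⟩ := hv
  exact ⟨u i, rfl, Pool.Agent.Q280.MS.subset_cl_pair (hY i).1 (hY i).2⟩

theorem not_bad (h : ModularSchanuel) (V : Finset sysJ.O) : ¬ sysJ.Bad V := by
  intro hV
  obtain ⟨u, _, h1, _, h3⟩ := Sys.exists_reps V univ fun v _ => by
    obtain ⟨x, rfl⟩ := Quotient.exists_rep v
    exact ⟨x, mem_univ _, rfl⟩
  obtain ⟨w, hw1, hw2⟩ := h J (fun τ _ => rfl) _ (fun i => (u i).1) (fun i => (u i).2.1)
    (fun i => (u i).2.2) fun i k hik he => hik (h3 i k (q_eq_iff.mpr he))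
  have h4 : ((V.card : ℕ) : ℕ∞) ≤ sysJ.rk V := by
    refine enat_le_eRk w hw2 fun m => ?_
    rcases hw1 m with ⟨i, hi⟩ | ⟨i, hi⟩
    · rw [← hi]
      exact subset_cl _ (Sys.S_sub_P (h1 i) (mem_insert _ _))
    · rw [← hi]
      exact subset_cl _ (Sys.S_sub_P (h1 i) (mem_insert_of_mem _ rfl))
  have h5 : sysJ.d * V.card = V.card := one_mul _
  unfold Sys.Bad at hV
  rw [h5] at hV
  exact absurd (h4.trans_lt hV) (lt_irrefl _)

theorem ms_of_not_bad (hno : ∀ V, ¬ sysJ.Bad V) : ModularSchanuel := by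
  intro J' hJ' n z h1 h2 h3
  have h4 := le_eRk hno (fun i => (⟨z i, h1 i, h2 i⟩ : Pt))
    (fun i k he => by
      by_contra hik
      exact h3 i k hik he) (Y := Set.range z ∪ Set.range (fun i => J' (z i))) fun k =>
      ⟨subset_cl _ (Or.inl ⟨k, rfl⟩), by
        apply subset_cl
        exact Or.inr ⟨k, hJ' _ (h1 k)⟩⟩
  exact exists_of_le_eRk h4

theorem maps_id : Maps {id} := by
  refine ⟨finite_singleton _, rfl, ?_⟩
  intro g hg z hz
  rw [mem_singleton_iff.mp hg]
  refine ⟨hz, ?_⟩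
  exact isAlgebraic_algebraMap (⟨z, IntermediateField.subset_adjoin _ _ (by simp)⟩ :
    IntermediateField.adjoin ℚ {z, (starRingEnd ℂ) z})

theorem exists_real {m : ℕ} {A : Set ℝ} (h : (m : ℕ∞) ≤ M.eRk ((fun x : ℝ => (x : ℂ)) '' A)) :
    ∃ w : Fin m → ℝ, (∀ k, w k ∈ A) ∧ AlgebraicIndependent ℚ w := by
  obtain ⟨w, hw1, hw2⟩ := exists_of_le_eRk h
  choose v hv1 hv2 using hw1
  refine ⟨v, hv1, ?_⟩
  have h4 : w = fun i => (Complex.ofRealAm.restrictScalars ℚ) (v i) := by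
    funext i
    exact (hv2 i).symm
  rw [h4] at hw2
  exact AlgebraicIndependent.of_comp (Complex.ofRealAm.restrictScalars ℚ) hw2

theorem alg_mem {X : Set ℂ} {z a : ℂ} (h1 : z ∈ M.closure X) (h2 : (starRingEnd ℂ) z ∈ M.closure X)
    (h : IsAlgebraic (IntermediateField.adjoin ℚ {z, (starRingEnd ℂ) z}) a) :
    a ∈ M.closure X ∧ (starRingEnd ℂ) a ∈ M.closure X := by
  have h3 := cl_of_isAlgebraic h
  refine ⟨cl_sub (Pool.Agent.Q280.MS.subset_cl_pair h1 h2) h3, ?_⟩
  have h4 := cl_cj h3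
  have h5 : cj '' {z, (starRingEnd ℂ) z} ⊆ M.closure X := by
    rintro _ ⟨y, hy, rfl⟩
    rcases hy with rfl | hy
    · exact h2
    · rw [mem_singleton_iff.mp hy, cj_apply, Complex.conj_conj]
      exact h1
  exact cl_sub h5 h4

/-- the conjecture implies the bound for every tuple -/
theorem bound_of_ms (hno : ∀ V, ¬ sysJ.Bad V) {𝒢 : Set (ℂ → ℂ)} (h𝒢 : Maps 𝒢) {n : ℕ}
    (z : Fin n → ℂ) (hz : ∀ i, 0 < (z i).im) : Bound 𝒢 z := by
  intro m u hu1 hu2 hu3
  have him : ∀ k, 0 < (u k).im := by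
    intro k
    obtain ⟨g, hg, i, h | h⟩ := hu1 k
    · rw [h]; exact (h𝒢.2.2 g hg _ (hz i)).1
    · rw [h]
      have := Pool.Agent.Q280.MS.refl_im (g (z i))
      have h2 := (h𝒢.2.2 g hg _ (hz i)).1
      rw [← this] at h2
      exact h2
  refine exists_real (le_eRk hno (fun k => (⟨u k, him k, hu2 k⟩ : Pt)) (fun i k he => by
      by_contra hik
      exact hu3 i k hik he) fun k => ?_)
  obtain ⟨g, hg, i, hgi⟩ := hu1 k
  have hY : ∀ y ∈ Numbers 𝒢 z, (y : ℂ) ∈ M.closure ((fun x : ℝ => (x : ℂ)) '' Numbers 𝒢 z) :=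
    fun y hy => subset_cl _ ⟨y, hy, rfl⟩
  have h1 := mem_cl_re_im (hY (z i).re ⟨i, Or.inl rfl⟩) (hY (z i).im ⟨i, Or.inr (Or.inl rfl)⟩)
  have h2 := alg_mem h1.1 h1.2 (h𝒢.2.2 g hg _ (hz i)).2
  have h3 := mem_cl_re_im (hY (J (g (z i))).re ⟨i, Or.inr (Or.inr ⟨g, hg, Or.inl rfl⟩)⟩)
    (hY (J (g (z i))).im ⟨i, Or.inr (Or.inr ⟨g, hg, Or.inr rfl⟩)⟩)
  rcases hgi with h | h
  · show u k ∈ _ ∧ J (u k) ∈ _
    rw [h]
    exact ⟨h2.1, h3.1⟩
  · show u k ∈ _ ∧ J (u k) ∈ _
    rw [h]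
    refine ⟨cl_neg h2.2, ?_⟩
    have : J (refl (g (z i))) = (starRingEnd ℂ) (J (g (z i))) := Pool.Agent.Q280.MS.J_refl _
    rw [this]
    exact h3.2

theorem closedForm_cf {x : ℂ} (hx : ClosedForm x) : ∃ p : Pt, p.1 = x ∧ sysJ.CF p := by
  induction hx with
  | intro F z hF him hcm h ih =>
    choose f hf1 hf2 using ih
    have hfin : (Set.range fun y : F => (f y.1 y.2 : sysJ.X)).Finite := Set.finite_range _
    refine ⟨⟨z, him, hcm⟩, rfl, Sys.CF.intro hfin.toFinset _ ?_ ?_⟩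
    · intro y hy
      rw [Set.Finite.mem_toFinset] at hy
      obtain ⟨t, rfl⟩ := hy
      exact hf2 _ _
    · have h1 : ((F : Set ℂ) ∪ J '' (F : Set ℂ)) ⊆ ⋃ y ∈ hfin.toFinset, sysJ.S y := by
        rintro a (ha | ⟨b, hb, rfl⟩)
        · refine mem_iUnion₂.mpr ⟨f a ha, (Set.Finite.mem_toFinset _).mpr ⟨⟨a, ha⟩, rfl⟩, ?_⟩
          have : a = (f a ha).1 := (hf1 a ha).symm
          show a ∈ ({(f a ha).1, _} : Set ℂ)
          exact Or.inl this
        · refine mem_iUnion₂.mpr ⟨f b hb, (Set.Finite.mem_toFinset _).mpr ⟨⟨b, hb⟩, rfl⟩, ?_⟩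
          show J b ∈ ({(f b hb).1, Pool.Agent.Q280.MS.J (f b hb).1} : Set ℂ)
          right
          show J b = J (f b hb).1
          rw [hf1]
      refine sysJ_step ?_
      rcases h with h | h
      · left
        exact cl_mono h1 (cl_of_isAlgebraic h)
      · right
        exact cl_mono (insert_subset_insert h1) (cl_of_isAlgebraic h)

/-- if the conjecture fails, the bound fails for an admissible tuple -/
theorem exists_bad_tuple (hbad : ∃ V, sysJ.Bad V) (L : Finset ℂ) (hL : ∀ x ∈ L, ClosedForm x ∧ refl x ∈ L)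
    (N : Set ℕ) (hN : N.Infinite) : ∃ n ∈ N, ∃ z : Fin n → ℂ, Admissible L z ∧
      ∃ W : Finset sysJ.O, sysJ.Bad W ∧ W.card = n ∧ (∀ v ∈ W, ∃ p : Pt, sysJ.q p = v ∧ p.1 ∈ range z) ∧
      (∀ i, ∃ p : Pt, p.1 = z i ∧ sysJ.q p ∈ W ∧ sysJ.q (ptRefl p) ∈ W) := by
  classical
  obtain ⟨V, hV⟩ := hbad
  have hLc : ∀ x ∈ L, ∃ p : Pt, p.1 = x ∧ sysJ.CF p := fun x hx => closedForm_cf (hL x hx).1
  choose f hf1 hf2 using hLc
  have hfin : (Set.range fun y : L => (f y.1 y.2 : sysJ.X)).Finite := Set.finite_range _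
  obtain ⟨W, h1, h2, h3, h4⟩ := hV.exists_good sysJ_sup hfin.toFinset (by
    intro y hy
    rw [Set.Finite.mem_toFinset] at hy
    obtain ⟨t, rfl⟩ := hy
    exact hf2 _ _) (by
    intro y hy
    rw [Set.Finite.mem_toFinset] at hy ⊢
    obtain ⟨t, rfl⟩ := hy
    refine ⟨⟨refl t.1, (hL t.1 t.2).2⟩, ?_⟩
    refine Subtype.ext ?_
    show (f (refl t.1) (hL t.1 t.2).2).1 = refl (f t.1 t.2).1
    rw [hf1, hf1]) N hN
  obtain ⟨u, _, h5, h6, h7⟩ := Sys.exists_reps W univ fun v _ => by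
    obtain ⟨x, rfl⟩ := Quotient.exists_rep v
    exact ⟨x, mem_univ _, rfl⟩
  refine ⟨_, h4, fun i => (u i).1, ?_, W, h1, rfl, ?_, ?_⟩
  · refine ⟨fun i => (u i).2.1, fun i => (u i).2.2, fun i k hik he => hik (h7 i k (q_eq_iff.mpr he)), ?_, ?_⟩
    · intro i
      obtain ⟨k, hk⟩ := h6 _ (h2 _ (h5 i))
      exact ⟨k, q_eq_iff.mp hk.symm⟩
    · intro x hx
      have h8 : sysJ.q (f x hx) ∈ W := h3 (Finset.mem_image.mpr ⟨f x hx,
        (Set.Finite.mem_toFinset _).mpr ⟨⟨x, hx⟩, rfl⟩, rfl⟩)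
      obtain ⟨k, hk⟩ := h6 _ h8
      have h9 : Equivalent (f x hx).1 (u k).1 := q_eq_iff.mp hk.symm
      rw [hf1] at h9
      exact ⟨k, h9⟩
  · intro v hv
    obtain ⟨k, hk⟩ := h6 v hv
    exact ⟨u k, hk, k, rfl⟩
  · intro i
    exact ⟨u i, rfl, h5 i, h2 _ (h5 i)⟩

theorem conj_cl_of {W : Set sysJ.O} {p : Pt} (h1 : sysJ.q p ∈ W) (h2 : sysJ.q (ptRefl p) ∈ W) :
    p.1 ∈ M.closure (sysJ.P W) ∧ (starRingEnd ℂ) p.1 ∈ M.closure (sysJ.P W) ∧
    J p.1 ∈ M.closure (sysJ.P W) ∧ (starRingEnd ℂ) (J p.1) ∈ M.closure (sysJ.P W) := by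
  refine ⟨subset_cl _ (Sys.S_sub_P h1 (mem_insert _ _)), ?_,
    subset_cl _ (Sys.S_sub_P h1 (mem_insert_of_mem _ rfl)), ?_⟩
  · have : (ptRefl p).1 ∈ M.closure (sysJ.P W) := subset_cl _ (Sys.S_sub_P h2 (mem_insert _ _))
    exact Pool.Agent.Q280.MS.conj_mem_cl this
  · have : J (ptRefl p).1 ∈ M.closure (sysJ.P W) := subset_cl _ (Sys.S_sub_P h2 (mem_insert_of_mem _ rfl))
    have h3 : J (ptRefl p).1 = (starRingEnd ℂ) (J p.1) := Pool.Agent.Q280.MS.J_refl _
    rwa [h3] at this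

theorem lt_of_real {W : Finset sysJ.O} (hW : sysJ.Bad W) (w : Fin W.card → ℝ)
    (hw : ∀ k, ((w k : ℝ) : ℂ) ∈ M.closure (sysJ.P (W : Set sysJ.O))) (h : AlgebraicIndependent ℚ w) : False := by
  have hw2 : AlgebraicIndependent ℚ (fun i => (Complex.ofRealAm.restrictScalars ℚ) (w i)) :=
    AlgebraicIndependent.map' h Complex.ofReal_injective
  have h4 : ((W.card : ℕ) : ℕ∞) ≤ sysJ.rk (W : Set sysJ.O) := enat_le_eRk _ hw2 fun k => hw k
  have h5 : sysJ.d * W.card = W.card := one_mul _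
  unfold Sys.Bad at hW
  rw [h5] at hW
  exact absurd (h4.trans_lt hW) (lt_irrefl _)

/-- **Real forms of the modular Schanuel conjecture.** -/
theorem result (L : Finset ℂ) (hL : ∀ x ∈ L, ClosedForm x ∧ refl x ∈ L) (N : Set ℕ) (hN : N.Infinite) :
    -- first form
    (ModularSchanuel ↔ ∀ n ∈ N, ∀ z : Fin n → ℂ, Admissible L z →
      ∃ w : Fin n → ℝ,
        (∀ k, ∃ i, w k = (z i).re ∨ w k = (z i).im ∨ w k = (J (z i)).re ∨ w k = (J (z i)).im) ∧
        AlgebraicIndependent ℚ w) ∧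
    -- second form
    (∀ 𝒢 : Set (ℂ → ℂ), Maps 𝒢 →
      (ModularSchanuel ↔ ∀ n ∈ N, ∀ z : Fin n → ℂ, Admissible L z → Bound 𝒢 z)) := by
  constructor
  · constructor
    · intro hMS n _ z hz
      obtain ⟨w, hw1, hw2⟩ := bound_of_ms (not_bad hMS) maps_id z hz.im_pos n z
        (fun k => ⟨id, rfl, k, Or.inl rfl⟩) hz.not_cm hz.inequivalent
      refine ⟨w, fun k => ?_, hw2⟩
      obtain ⟨i, h | h | ⟨g, hg, h⟩⟩ := hw1 k
      · exact ⟨i, Or.inl h⟩
      · exact ⟨i, Or.inr (Or.inl h)⟩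
      · rw [mem_singleton_iff.mp hg] at h
        exact ⟨i, Or.inr (Or.inr h)⟩
    · intro h
      by_contra hMS
      have hbad : ∃ V, sysJ.Bad V := by
        by_contra hno
        push Not at hno
        exact hMS (ms_of_not_bad hno)
      obtain ⟨n, hn, z, hz, W, h1, rfl, _, h3⟩ := exists_bad_tuple hbad L hL N hN
      obtain ⟨w, hw1, hw2⟩ := h _ hn z hz
      refine lt_of_real h1 w (fun k => ?_) hw2
      obtain ⟨i, hi⟩ := hw1 k
      obtain ⟨p, hp, h4, h5⟩ := h3 i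
      obtain ⟨h6, h7, h8, h9⟩ := conj_cl_of h4 h5
      rw [hp] at h6 h7 h8 h9
      rcases hi with h | h | h | h
      · rw [h]; exact re_mem_cl h6 h7
      · rw [h]; exact im_mem_cl h6 h7
      · rw [h]; exact re_mem_cl h8 h9
      · rw [h]; exact im_mem_cl h8 h9
  · intro 𝒢 h𝒢
    constructor
    · intro hMS n _ z hz
      exact bound_of_ms (not_bad hMS) h𝒢 z hz.im_pos
    · intro h
      by_contra hMS
      have hbad : ∃ V, sysJ.Bad V := by
        by_contra hno
        push Not at hno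
        exact hMS (ms_of_not_bad hno)
      classical
      obtain ⟨n, hn, z, hz, W, h1, _, h2, h3⟩ := exists_bad_tuple hbad L hL N hN
      obtain ⟨U, hU⟩ : ∃ U : Set Pt, U = {p : Pt | ∃ g ∈ 𝒢, ∃ i, p.1 = g (z i) ∨ p.1 = refl (g (z i))} := ⟨_, rfl⟩
      have hUfin : U.Finite := by
        have h4 : (((fun x : (ℂ → ℂ) × Fin n => x.1 (z x.2)) '' (𝒢 ×ˢ (univ : Set (Fin n)))) ∪
            ((fun x : (ℂ → ℂ) × Fin n => refl (x.1 (z x.2))) '' (𝒢 ×ˢ (univ : Set (Fin n))))).Finite :=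
          ((h𝒢.1.prod finite_univ).image _).union ((h𝒢.1.prod finite_univ).image _)
        refine Set.Finite.of_finite_image (f := Subtype.val) (h4.subset ?_) (Subtype.val_injective.injOn)
        rintro _ ⟨p, hp, rfl⟩
        rw [hU] at hp
        obtain ⟨g, hg, i, hp | hp⟩ := hp
        · exact Or.inl ⟨(g, i), ⟨hg, mem_univ _⟩, hp.symm⟩
        · exact Or.inr ⟨(g, i), ⟨hg, mem_univ _⟩, hp.symm⟩
      have hzW : ∀ i, z i ∈ M.closure (sysJ.P (W : Set sysJ.O)) ∧
          (starRingEnd ℂ) (z i) ∈ M.closure (sysJ.P (W : Set sysJ.O)) := by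
        intro i
        obtain ⟨p, hp, h4, h5⟩ := h3 i
        obtain ⟨h6, h7, _, _⟩ := conj_cl_of h4 h5
        rw [hp] at h6 h7
        exact ⟨h6, h7⟩
      have hT : sysJ.Bad (W ∪ Finset.image sysJ.q hUfin.toFinset) := by
        refine h1.absorb hUfin.toFinset fun x hx => ?_
        rw [Set.Finite.mem_toFinset, hU] at hx
        obtain ⟨g, hg, i, hx⟩ := hx
        refine sysJ_step (Or.inl ?_)
        have h4 := alg_mem (hzW i).1 (hzW i).2 (h𝒢.2.2 g hg _ (hz.im_pos i)).2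
        rcases hx with hx | hx
        · rw [hx]; exact h4.1
        · rw [hx]; exact cl_neg h4.2
      obtain ⟨T, hTdef⟩ : ∃ T : Finset sysJ.O, T = W ∪ Finset.image sysJ.q hUfin.toFinset := ⟨_, rfl⟩
      rw [← hTdef] at hT
      have hqT : ∀ p ∈ U, sysJ.q p ∈ T := by
        intro p hp
        rw [hTdef, Finset.mem_union, Finset.mem_image]
        exact Or.inr ⟨p, (Set.Finite.mem_toFinset _).mpr hp, rfl⟩
      obtain ⟨u, h5, _, _, h8⟩ := Sys.exists_reps T U fun v hv => by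
        rw [hTdef, Finset.mem_union, Finset.mem_image] at hv
        rcases hv with hv | ⟨p, hp, rfl⟩
        · obtain ⟨p, hp, i, hi⟩ := h2 v hv
          refine ⟨p, ?_, hp⟩
          rw [hU]
          exact ⟨id, h𝒢.2.1, i, Or.inl hi.symm⟩
        · exact ⟨p, (Set.Finite.mem_toFinset _).mp hp, rfl⟩
      obtain ⟨w, hw1, hw2⟩ := h n hn z hz T.card (fun k => (u k).1) (fun k => by
        have := h5 k
        rwa [hU] at this) (fun k => (u k).2.2) (fun k l hkl he => hkl (h8 k l (q_eq_iff.mpr he)))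
      refine lt_of_real hT w (fun k => ?_) hw2
      have hWT : sysJ.P (W : Set sysJ.O) ⊆ sysJ.P (T : Set sysJ.O) := by
        apply Sys.P_mono
        rw [hTdef, Finset.coe_union]
        exact subset_union_left
      have hJ : ∀ g ∈ 𝒢, ∀ i, J (g (z i)) ∈ M.closure (sysJ.P (T : Set sysJ.O)) ∧
          (starRingEnd ℂ) (J (g (z i))) ∈ M.closure (sysJ.P (T : Set sysJ.O)) := by
        intro g hg i
        have him := (h𝒢.2.2 g hg _ (hz.im_pos i)).1
        by_cases hcm : CM (g (z i))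
        · refine ⟨Pool.Agent.Q280.MS.CM.J_mem_cl him hcm _, ?_⟩
          have h9 : Pool.Agent.Q280.MS.CM (refl (g (z i))) := by
            apply Pool.Agent.Q280.MS.CM.of_refl
            have : Pool.Agent.Q280.MS.refl (refl (g (z i))) = g (z i) := Pool.Agent.Q280.MS.refl_refl _
            rw [this]
            exact hcm
          have h10 : 0 < (refl (g (z i))).im := by
            have : (refl (g (z i))).im = (g (z i)).im := Pool.Agent.Q280.MS.refl_im _
            rw [this]; exact him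
          have h11 := Pool.Agent.Q280.MS.CM.J_mem_cl h10 h9 (sysJ.P (T : Set sysJ.O))
          have h12 : Pool.Agent.Q280.MS.J (refl (g (z i))) = (starRingEnd ℂ) (J (g (z i))) :=
            Pool.Agent.Q280.MS.J_refl _
          rwa [h12] at h11
        · obtain ⟨p, hp⟩ : ∃ p : Pt, p.1 = g (z i) := ⟨⟨_, him, hcm⟩, rfl⟩
          have h13 : p ∈ U := by
            rw [hU]
            exact ⟨g, hg, i, Or.inl hp⟩
          have h14 : ptRefl p ∈ U := by
            rw [hU]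
            refine ⟨g, hg, i, Or.inr ?_⟩
            show refl p.1 = _
            rw [hp]
          obtain ⟨_, _, h15, h16⟩ := conj_cl_of (W := (T : Set sysJ.O)) (hqT p h13) (hqT _ h14)
          rw [hp] at h15 h16
          exact ⟨h15, h16⟩
      obtain ⟨i, hi | hi | ⟨g, hg, hi | hi⟩⟩ := hw1 k
      · rw [hi]; exact re_mem_cl (cl_mono hWT (hzW i).1) (cl_mono hWT (hzW i).2)
      · rw [hi]; exact im_mem_cl (cl_mono hWT (hzW i).1) (cl_mono hWT (hzW i).2)
      · rw [hi]; exact re_mem_cl (hJ g hg i).1 (hJ g hg i).2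
      · rw [hi]; exact im_mem_cl (hJ g hg i).1 (hJ g hg i).2

end Pool.Agent.Results.MP_47914d_nt.RealForm
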